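import Pool.Agent.helper35.MR.SpecA

/-!
# Project mr, module EXT: the extension lemma
-/

set_option autoImplicit false

open Finset

namespace Pool.Agent.helper35.MR

open Pool.Agent.RRank

section

variable {K : Type} [Field K] {n : ℕ}

/-- the vector with coordinate `x` at `none` and `a i` at `some i` -/
def EXT_v (x : K) (a : Fin n → K) : Option (Fin n) → K := fun o => o.elim x a

/-- extension by zero -/
def EXT_ex : (Fin n → K) →ₗ[K] (Option (Fin n) → K) where
  toFun a := EXT_v 0 a
  map_add' a b := by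
    funext o
    cases o <;> simp [EXT_v]
  map_smul' c a := by
    funext o
    cases o <;> simp [EXT_v]

theorem EXT_ev (t : Option (Fin n) → Option (Fin n) → Option (Fin n) → K) (κ : K)
    (ht : ∀ i j k : Fin n, t (some i) (some j) (some k) = if i = j ∧ j = k then κ else 0)
    (x y z : K) (a b c : Fin n → K) :
    ev3 t (EXT_v x a) (EXT_v y b) (EXT_v z c) =
      t none none none * (x * y * z) + ∑ i, t (some i) none none * (a i * y * z) +
      ∑ j, t none (some j) none * (x * b j * z) + ∑ k, t none none (some k) * (x * y * c k) +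
      ∑ i, ∑ j, t (some i) (some j) none * (a i * b j * z) +
      ∑ i, ∑ k, t (some i) none (some k) * (a i * y * c k) +
      ∑ j, ∑ k, t none (some j) (some k) * (x * b j * c k) +
      κ * ∑ i, a i * b i * c i := by
  have h8 : ∑ i, ∑ j, ∑ k, t (some i) (some j) (some k) * (a i * b j * c k) =
      κ * ∑ i, a i * b i * c i := by
    rw [Finset.mul_sum]
    refine Finset.sum_congr rfl fun i _ => ?_
    rw [Finset.sum_eq_single i]
    · rw [Finset.sum_eq_single i]
      · rw [ht, if_pos ⟨rfl, rfl⟩]
      · intro k _ hk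
        rw [ht, if_neg (fun h => hk h.2.symm), zero_mul]
      · intro h
        exact absurd (Finset.mem_univ _) h
    · intro j _ hj
      refine Finset.sum_eq_zero fun k _ => ?_
      rw [ht, if_neg (fun h => hj h.1.symm), zero_mul]
    · intro h
      exact absurd (Finset.mem_univ _) h
  simp only [ev3, Fintype.sum_option, EXT_v, Option.elim, Finset.sum_add_distrib]
  rw [h8]
  ring

theorem EXT_sum2 (i : Fin n) (F : Fin n → Fin n → K) :
    ∑ x, ∑ y, (if x = i then F x y else 0) = ∑ y, F i y := by
  rw [Finset.sum_eq_single i]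
  · simp
  · intro x _ hx
    simp [hx]
  · intro h
    exact absurd (Finset.mem_univ _) h

theorem EXT_dim (U : Submodule K (Option (Fin n) → K)) :
    Module.finrank K U ≤ Module.finrank K (U.comap EXT_ex) + 1 ∧
      ((∀ u ∈ U, u none = 0) → Module.finrank K U ≤ Module.finrank K (U.comap EXT_ex)) := by
  set f : U →ₗ[K] K := (LinearMap.proj none : (Option (Fin n) → K) →ₗ[K] K) ∘ₗ U.subtype with hf
  have h1 := LinearMap.finrank_range_add_finrank_ker f
  have h2 : Module.finrank K (LinearMap.range f) ≤ 1 := by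
    have := Submodule.finrank_le (LinearMap.range f)
    rwa [Module.finrank_self] at this
  have hmem : ∀ u : LinearMap.ker f, (fun i => (u.1.1 : Option (Fin n) → K) (some i)) ∈
      U.comap EXT_ex := by
    intro u
    rw [Submodule.mem_comap]
    have h3 : EXT_ex (fun i => (u.1.1 : Option (Fin n) → K) (some i)) = u.1.1 := by
      funext o
      cases o with
      | none =>
        have h4 : f u.1 = 0 := LinearMap.mem_ker.1 u.2
        exact h4.symm
      | some i => rfl
    rw [h3]
    exact u.1.2
  let g : LinearMap.ker f →ₗ[K] (U.comap EXT_ex) :=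
    { toFun := fun u => ⟨fun i => (u.1.1 : Option (Fin n) → K) (some i), hmem u⟩
      map_add' := fun u v => rfl
      map_smul' := fun c u => rfl }
  have hg : Function.Injective g := by
    intro u v huv
    have h3 : (fun i => (u.1.1 : Option (Fin n) → K) (some i)) = fun i => v.1.1 (some i) :=
      congrArg Subtype.val huv
    apply Subtype.ext
    apply Subtype.ext
    funext o
    cases o with
    | none =>
      have h4 : f u.1 = 0 := LinearMap.mem_ker.1 u.2
      have h5 : f v.1 = 0 := LinearMap.mem_ker.1 v.2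
      exact h4.trans h5.symm
    | some i => exact congrFun h3 i
  have h6 := LinearMap.finrank_le_finrank_of_injective hg
  refine ⟨by omega, fun h => ?_⟩
  have h7 : f = 0 := by
    ext u
    exact h u.1 u.2
  have h8 : Module.finrank K (LinearMap.range f) = 0 := by
    rw [h7, LinearMap.range_zero, finrank_bot]
  omega

/-- normalized vector -/
theorem EXT_norm (U : Submodule K (Option (Fin n) → K)) (s : Fin n → Fin 3) (r : Fin 3)
    (hs : ∀ u, u ∈ U.comap EXT_ex ↔ ∀ i, s i = r → u i = 0) (hu : ∃ u ∈ U, u none ≠ 0) :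
    ∃ a : Fin n → K, (∀ i, s i ≠ r → a i = 0) ∧ EXT_v 1 a ∈ U := by
  obtain ⟨u, hu, hu0⟩ := hu
  refine ⟨fun i => if s i = r then (u none)⁻¹ * u (some i) else 0, fun i hi => if_neg hi, ?_⟩
  have h1 : (fun i => if s i = r then 0 else (u none)⁻¹ * u (some i)) ∈ U.comap EXT_ex := by
    rw [hs]
    intro i hi
    exact if_pos hi
  rw [Submodule.mem_comap] at h1
  have h2 := U.sub_mem (U.smul_mem (u none)⁻¹ hu) h1
  convert h2 using 1
  funext o
  cases o with
  | none => simp [EXT_v, EXT_ex, hu0]
  | some i =>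
    simp only [EXT_v, EXT_ex, Option.elim, Pi.sub_apply, Pi.smul_apply, smul_eq_mul,
      LinearMap.coe_mk, AddHom.coe_mk]
    split_ifs <;> ring

end

theorem EXT (h0 : TGT_stmt) : EXT_stmt := by
  intro K _ n t κ hκ ht hnf
  unfold Full3 at hnf
  push Not at hnf
  obtain ⟨U, V, W, hdim, hz⟩ := hnf
  rw [Fintype.card_option, Fintype.card_fin] at hdim
  obtain ⟨hU1, hU2⟩ := EXT_dim U
  obtain ⟨hV1, hV2⟩ := EXT_dim V
  obtain ⟨hW1, hW2⟩ := EXT_dim W
  obtain ⟨hle, heq⟩ := h0 K n (U.comap EXT_ex) (V.comap EXT_ex) (W.comap EXT_ex) (by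
    intro u hu v hv w hw
    have h1 := hz _ hu _ hv _ hw
    have h2 := EXT_ev t κ ht 0 0 0 u v w
    have h3 : ev3 t (EXT_v 0 u) (EXT_v 0 v) (EXT_v 0 w) = 0 := h1
    rw [h3] at h2
    simp only [mul_zero, zero_mul, Finset.sum_const_zero, add_zero, zero_add] at h2
    exact (mul_eq_zero.1 h2.symm).resolve_left hκ)
  have hUn : ∃ u ∈ U, u none ≠ 0 := by
    by_contra h
    push Not at h
    have := hU2 h
    omega
  have hVn : ∃ u ∈ V, u none ≠ 0 := by
    by_contra h
    push Not at h
    have := hV2 h
    omega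
  have hWn : ∃ u ∈ W, u none ≠ 0 := by
    by_contra h
    push Not at h
    have := hW2 h
    omega
  obtain ⟨s, hsU, hsV, hsW⟩ := heq (by omega)
  obtain ⟨a, ha, haU⟩ := EXT_norm U s 0 hsU hUn
  obtain ⟨b, hb, hbV⟩ := EXT_norm V s 1 hsV hVn
  obtain ⟨c, hc, hcW⟩ := EXT_norm W s 2 hsW hWn
  have eU : ∀ i, s i ≠ 0 → EXT_v 0 (Pi.single i (1 : K)) ∈ U := by
    intro i hi
    have h1 : (Pi.single i (1 : K)) ∈ U.comap EXT_ex := by
      rw [hsU]
      intro j hj
      rw [Pi.single_eq_of_ne]
      rintro rfl
      exact hi hj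
    exact h1
  have eV : ∀ i, s i ≠ 1 → EXT_v 0 (Pi.single i (1 : K)) ∈ V := by
    intro i hi
    have h1 : (Pi.single i (1 : K)) ∈ V.comap EXT_ex := by
      rw [hsV]
      intro j hj
      rw [Pi.single_eq_of_ne]
      rintro rfl
      exact hi hj
    exact h1
  have eW : ∀ i, s i ≠ 2 → EXT_v 0 (Pi.single i (1 : K)) ∈ W := by
    intro i hi
    have h1 : (Pi.single i (1 : K)) ∈ W.comap EXT_ex := by
      rw [hsW]
      intro j hj
      rw [Pi.single_eq_of_ne]
      rintro rfl
      exact hi hj
    exact h1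
  have hab : ∀ i, a i * b i = 0 := by
    intro i
    by_cases h : s i = 0
    · rw [hb i (by rw [h]; decide), mul_zero]
    · rw [ha i h, zero_mul]
  have hac : ∀ i, a i * c i = 0 := by
    intro i
    by_cases h : s i = 0
    · rw [hc i (by rw [h]; decide), mul_zero]
    · rw [ha i h, zero_mul]
  have hbc : ∀ i, b i * c i = 0 := by
    intro i
    by_cases h : s i = 1
    · rw [hc i (by rw [h]; decide), mul_zero]
    · rw [hb i h, zero_mul]
  refine ⟨s, a, b, c, ha, hb, hc, ?_, ?_, ?_, ?_, ?_, ?_, ?_⟩
  · intro i j hi hj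
    have h1 := hz _ (eU i hi) _ (eV j hj) _ hcW
    rw [EXT_ev t κ ht] at h1
    simp only [Pi.single_apply, mul_ite, ite_mul, mul_zero, zero_mul, mul_one, one_mul, ite_self,
      Finset.sum_const_zero, add_zero, zero_add, Finset.sum_ite_eq', Finset.sum_ite_eq,
      Finset.mem_univ, if_true] at h1
    by_cases h : i = j
    · rw [if_pos h.symm] at h1
      rw [if_pos h, h]
      rw [h] at h1
      exact h1
    · rw [if_neg (Ne.symm h)] at h1
      rw [if_neg h]
      exact h1
  · intro i k hi hk
    have h1 := hz _ (eU i hi) _ hbV _ (eW k hk)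
    rw [EXT_ev t κ ht] at h1
    simp only [Pi.single_apply, mul_ite, ite_mul, mul_zero, zero_mul, mul_one, one_mul, ite_self,
      Finset.sum_const_zero, add_zero, zero_add, Finset.sum_ite_eq', Finset.sum_ite_eq,
      Finset.mem_univ, if_true] at h1
    by_cases h : i = k
    · rw [if_pos h.symm] at h1
      rw [if_pos h, h]
      rw [h] at h1
      exact h1
    · rw [if_neg (Ne.symm h)] at h1
      rw [if_neg h]
      exact h1
  · intro j k hj hk
    have h1 := hz _ haU _ (eV j hj) _ (eW k hk)
    rw [EXT_ev t κ ht] at h1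
    simp only [Pi.single_apply, mul_ite, ite_mul, mul_zero, zero_mul, mul_one, one_mul, ite_self,
      Finset.sum_const_zero, add_zero, zero_add, Finset.sum_ite_eq', Finset.sum_ite_eq,
      Finset.mem_univ, if_true] at h1
    by_cases h : j = k
    · rw [if_pos h.symm] at h1
      rw [if_pos h, h]
      rw [h] at h1
      exact h1
    · rw [if_neg (Ne.symm h)] at h1
      rw [if_neg h]
      exact h1
  · intro i hi
    have h1 := hz _ (eU i hi) _ hbV _ hcW
    rw [EXT_ev t κ ht] at h1
    simp only [Pi.single_apply, mul_ite, ite_mul, mul_zero, zero_mul, mul_one, one_mul, ite_self,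
      Finset.sum_const_zero, add_zero, zero_add, Finset.sum_ite_eq', Finset.sum_ite_eq,
      Finset.mem_univ, if_true] at h1
    rw [EXT_sum2, EXT_sum2, hbc, mul_zero, add_zero] at h1
    rw [← h1]
    simp only [mul_comm]
  · intro j hj
    have h1 := hz _ haU _ (eV j hj) _ hcW
    rw [EXT_ev t κ ht] at h1
    simp only [Pi.single_apply, mul_ite, ite_mul, mul_zero, zero_mul, mul_one, one_mul, ite_self,
      Finset.sum_const_zero, add_zero, zero_add, Finset.sum_ite_eq', Finset.sum_ite_eq,
      Finset.mem_univ, if_true] at h1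
    rw [EXT_sum2, hac, mul_zero, add_zero] at h1
    rw [← h1]
    simp only [mul_comm]
  · intro k hk
    have h1 := hz _ haU _ hbV _ (eW k hk)
    rw [EXT_ev t κ ht] at h1
    simp only [Pi.single_apply, mul_ite, ite_mul, mul_zero, zero_mul, mul_one, one_mul, ite_self,
      Finset.sum_const_zero, add_zero, zero_add, Finset.sum_ite_eq', Finset.sum_ite_eq,
      Finset.mem_univ, if_true] at h1
    rw [hab, mul_zero, add_zero] at h1
    rw [← h1]
    simp only [mul_comm]
  · have h1 := hz _ haU _ hbV _ hcW
    rw [EXT_ev t κ ht] at h1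
    simp only [Pi.single_apply, mul_ite, ite_mul, mul_zero, zero_mul, mul_one, one_mul, ite_self,
      Finset.sum_const_zero, add_zero, zero_add, Finset.sum_ite_eq', Finset.sum_ite_eq,
      Finset.mem_univ, if_true] at h1
    have h2 : ∑ i, a i * b i * c i = 0 := Finset.sum_eq_zero fun i _ => by rw [hab, zero_mul]
    rw [h2, mul_zero, add_zero] at h1
    rw [← h1]
    simp only [mul_comm]

end Pool.Agent.helper35.MR
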