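import Pool.Agent.helper35.MR.SpecA

/-!
# Project mr, module R3B: a nonzero minor of the pencil gives a minor of large slice rank
-/

set_option autoImplicit false

open Finset

namespace Pool.Agent.helper35.MR

open Pool.Agent.RRank

section

variable {K Z : Type} [Field K]

open Classical in
/-- set the variables outside `Z'` to zero -/
noncomputable def R3B_phi (Z' : Finset Z) : MvPolynomial Z K →ₐ[K] MvPolynomial Z K :=
  MvPolynomial.aeval fun z => if z ∈ Z' then MvPolynomial.X z else 0

theorem R3B_coeff (m : Z →₀ ℕ) (P : MvPolynomial Z K) :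
    MvPolynomial.coeff m (R3B_phi m.support P) = MvPolynomial.coeff m P := by
  classical
  induction P using MvPolynomial.induction_on' with
  | monomial u c =>
    rw [R3B_phi, MvPolynomial.aeval_monomial, MvPolynomial.algebraMap_eq,
      MvPolynomial.coeff_C_mul, MvPolynomial.coeff_monomial]
    by_cases hu : u.support ⊆ m.support
    · have h1 : (u.prod fun i k => (if i ∈ m.support then (MvPolynomial.X i : MvPolynomial Z K)
          else 0) ^ k) = u.prod fun i k => (MvPolynomial.X i : MvPolynomial Z K) ^ k := by
        refine Finsupp.prod_congr fun i hi => ?_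
        rw [if_pos (hu hi)]
      rw [h1, Finsupp.prod, MvPolynomial.prod_X_pow_eq_monomial, MvPolynomial.coeff_monomial]
      split_ifs <;> simp
    · obtain ⟨z, hz, hz'⟩ := Finset.not_subset.1 hu
      have h1 : (u.prod fun i k => (if i ∈ m.support then (MvPolynomial.X i : MvPolynomial Z K)
          else 0) ^ k) = 0 := by
        refine Finset.prod_eq_zero hz ?_
        dsimp only
        rw [if_neg hz', zero_pow (Finsupp.mem_support_iff.1 hz)]
      have h2 : u ≠ m := by
        rintro rfl
        exact hz' hz
      rw [h1, MvPolynomial.coeff_zero, mul_zero, if_neg h2]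
  | add p q hp hq => rw [map_add, MvPolynomial.coeff_add, MvPolynomial.coeff_add, hp, hq]

theorem R3B_deg (l : ℕ) (A : Matrix (Fin l) (Fin l) (MvPolynomial Z K))
    (hA : ∀ s t, (A s t).totalDegree ≤ 1) : A.det.totalDegree ≤ l := by
  rw [Matrix.det_apply]
  refine MvPolynomial.totalDegree_finsetSum_le fun σ _ => ?_
  have h1 : (∏ i, A (σ i) i).totalDegree ≤ l := by
    refine (MvPolynomial.totalDegree_finset_prod _ _).trans ?_
    refine (Finset.sum_le_sum fun i _ => hA (σ i) i).trans ?_
    simp
  rcases Int.units_eq_one_or (Equiv.Perm.sign σ) with h | h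
  · rw [h, one_smul]
    exact h1
  · rw [h, Units.neg_smul, one_smul, MvPolynomial.totalDegree_neg]
    exact h1

end

theorem R3B : R3B_stmt := by
  classical
  intro K X Y Z _ _ T l i j hP
  set P := ((pencil T).submatrix i j).det with hPdef
  obtain ⟨m, hm⟩ := MvPolynomial.ne_zero_iff.1 hP
  refine ⟨m.support, ?_, ?_⟩
  · have h1 : P.totalDegree ≤ l := by
      apply R3B_deg
      intro s t
      rw [Matrix.submatrix_apply, pencil, Matrix.of_apply]
      refine MvPolynomial.totalDegree_finsetSum_le fun z _ => ?_
      refine (MvPolynomial.totalDegree_mul _ _).trans ?_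
      rw [MvPolynomial.totalDegree_C, MvPolynomial.totalDegree_X]
    have h2 := MvPolynomial.le_totalDegree (MvPolynomial.mem_support_iff.2 hm)
    have h3 : m.support.card ≤ m.sum fun _ e => e := by
      rw [Finsupp.sum, Finset.card_eq_sum_ones]
      refine Finset.sum_le_sum fun z hz => ?_
      exact Nat.one_le_iff_ne_zero.2 (Finsupp.mem_support_iff.1 hz)
    omega
  · intro N₁ N₂ a b a' b' hT
    have hφ : R3B_phi m.support P ≠ 0 := by
      rw [MvPolynomial.ne_zero_iff]
      exact ⟨m, by rwa [R3B_coeff]⟩
    set M : Matrix (Fin l) (Fin l) (MvPolynomial Z K) :=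
      Matrix.of fun s t => ∑ z ∈ m.support, MvPolynomial.C (T (i s) (j t) z) * MvPolynomial.X z
      with hM
    have hMdet : M.det = R3B_phi m.support P := by
      rw [hPdef, AlgHom.map_det]
      congr 1
      ext1 s t
      rw [AlgHom.mapMatrix_apply, Matrix.map_apply, Matrix.submatrix_apply, pencil,
        Matrix.of_apply, map_sum, hM, Matrix.of_apply, ← Finset.sum_subset (Finset.subset_univ
          m.support)]
      · refine Finset.sum_congr rfl fun z hz => ?_
        rw [map_mul, R3B_phi, MvPolynomial.aeval_X, if_pos hz, ← MvPolynomial.algebraMap_eq,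
          AlgHom.commutes]
      · intro z _ hz
        rw [map_mul, R3B_phi, MvPolynomial.aeval_X, if_neg hz, mul_zero]
    -- factorisation
    set A : Matrix (Fin l) (Fin N₁ ⊕ Fin N₂) (MvPolynomial Z K) := Matrix.of fun s n =>
      Sum.elim (fun n => MvPolynomial.C (a n (i s)))
        (fun n => ∑ z ∈ m.support, MvPolynomial.C (b' n (i s) z) * MvPolynomial.X z) n with hA
    set B : Matrix (Fin N₁ ⊕ Fin N₂) (Fin l) (MvPolynomial Z K) := Matrix.of fun n t =>
      Sum.elim (fun n => ∑ z ∈ m.support, MvPolynomial.C (b n (j t) z) * MvPolynomial.X z)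
        (fun n => MvPolynomial.C (a' n (j t))) n with hB
    have hAB : M = A * B := by
      ext1 s t
      rw [Matrix.mul_apply, Fintype.sum_sum_type, hM, Matrix.of_apply]
      simp only [hA, hB, Matrix.of_apply, Sum.elim_inl, Sum.elim_inr, Finset.mul_sum,
        Finset.sum_mul]
      rw [Finset.sum_comm (s := Finset.univ), Finset.sum_comm (s := Finset.univ),
        ← Finset.sum_add_distrib]
      refine Finset.sum_congr rfl fun z hz => ?_
      rw [hT s t z hz, map_add, map_sum, map_sum, add_mul, Finset.sum_mul, Finset.sum_mul]
      congr 1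
      · refine Finset.sum_congr rfl fun n _ => ?_
        rw [map_mul]
        ring
      · refine Finset.sum_congr rfl fun n _ => ?_
        rw [map_mul]
        ring
    set F := FractionRing (MvPolynomial Z K)
    set g : MvPolynomial Z K →+* F := algebraMap _ _ with hg
    have hinj : Function.Injective g := IsFractionRing.injective _ _
    have h1 : (M.map g).det ≠ 0 := by
      have h2 : (M.map g).det = g M.det := (RingHom.map_det g M).symm
      rw [h2, hMdet]
      exact (map_ne_zero_iff g hinj).2 hφ
    have h3 : (M.map g).rank = l := by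
      rw [Matrix.rank_of_isUnit _ ((Matrix.isUnit_iff_isUnit_det _).2 (isUnit_iff_ne_zero.2 h1)),
        Fintype.card_fin]
    have h4 : M.map g = A.map g * B.map g := by
      rw [hAB]
      exact Matrix.map_mul
    have h5 : (M.map g).rank ≤ (A.map g).rank := by
      rw [h4]
      exact Matrix.rank_mul_le_left _ _
    have h6 := Matrix.rank_le_card_width (A.map g)
    rw [Fintype.card_sum, Fintype.card_fin, Fintype.card_fin] at h6
    omega

end Pool.Agent.helper35.MR
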