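import Pool.Agent.helper35.MR.SpecB

set_option autoImplicit false

open Finset

namespace Pool.Agent.helper35.MR

open Pool.Agent.RRank

theorem SB4_succ {X Y Z W K : Type} [Field K] {r : ℕ} {S : X → Y → Z → W → K} (h : Sl r S) :
    Sl (r + 1) S := by
  obtain ⟨a, a', b, b', c, c', d, d', hS⟩ := h
  refine ⟨Fin.cons (α := fun _ => X → K) 0 a, Fin.cons (α := fun _ => Y → Z → W → K) 0 a',
    Fin.cons (α := fun _ => Y → K) 0 b, Fin.cons (α := fun _ => X → Z → W → K) 0 b',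
    Fin.cons (α := fun _ => Z → K) 0 c, Fin.cons (α := fun _ => X → Y → W → K) 0 c',
    Fin.cons (α := fun _ => W → K) 0 d, Fin.cons (α := fun _ => X → Y → Z → K) 0 d', ?_⟩
  intro x y z w
  rw [hS]
  unfold slSum
  simp only [Fin.sum_univ_succ, Fin.cons_zero, Fin.cons_succ, Pi.zero_apply, zero_mul, zero_add]

theorem SB4_mono {X Y Z W K : Type} [Field K] {r r' : ℕ} (hr : r ≤ r') {S : X → Y → Z → W → K}
    (h : Sl r S) : Sl r' S := by
  induction r', hr using Nat.le_induction with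
  | base => exact h
  | succ k _ ih => exact SB4_succ ih

/-- SB4: the final theorem (B). -/
theorem SB4 (hHLB : HLB_stmt) (hEXP : EXP_stmt) (hREGB : REGB_stmt) (hHML : HML_stmt)
    (hCONA : CONA_stmt) (hSLC : SLC_stmt) : SB4_stmt := by
  have hr : ∀ l : ℕ, ∃ r₁ : ℕ, ∀ (K X Y Z W : Type) [Field K]
      (T : X → Y → Z → W → K) (a b c d e f : ℕ), a + b + c + d + e + f ≤ 6 * l ^ 2 →
      Dec (l ^ 3) a b c d e f T →
      ∃ r a b c d e f : ℕ, r ≤ r₁ ∧ a + b + c + d + e + f ≤ 6 * l ^ 2 ∧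
        DecReg (2 * (r + 3 * (6 * l ^ 2) * l) + 2 * (6 * l ^ 2) ^ 2) r a b c d e f T := fun l =>
    hREGB (fun r => 2 * (r + 3 * (6 * l ^ 2) * l) + 2 * (6 * l ^ 2) ^ 2) (6 * l ^ 2) (l ^ 3)
  choose r₁ hr₁ using hr
  refine ⟨fun l => 4 * r₁ l + 1, ?_⟩
  intro l K _ hl Q _ T hT
  classical
  by_cases hne : ∃ x y z w, hyp l (fun a b c d => T (mk4 a b c d)) x y z w ≠ 0
  · obtain ⟨x, y, z, w, hxyz⟩ := hne
    refine ⟨mk4 (Q := fun α => Finset (Q α)) (univ.image x) (univ.image y) (univ.image z)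
      (univ.image w), ?_, ?_⟩
    · intro α
      fin_cases α
      · exact Finset.card_image_le.trans (by simp)
      · exact Finset.card_image_le.trans (by simp)
      · exact Finset.card_image_le.trans (by simp)
      · exact Finset.card_image_le.trans (by simp)
    · exact hHLB K Q T l x y z w _ (fun i => Finset.mem_image_of_mem x (Finset.mem_univ i))
        (fun i => Finset.mem_image_of_mem y (Finset.mem_univ i))
        (fun i => Finset.mem_image_of_mem z (Finset.mem_univ i))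
        (fun i => Finset.mem_image_of_mem w (Finset.mem_univ i)) hxyz
  · exfalso
    have h0 : ∀ x y z w, hyp l (fun a b c d => T (mk4 a b c d)) x y z w = 0 := by
      intro x y z w
      by_contra h
      exact hne ⟨x, y, z, w, h⟩
    -- the least `k` such that `hyp k` vanishes
    have hex : ∃ k : ℕ, ∀ x y z w, hyp k (fun a b c d => T (mk4 a b c d)) x y z w = 0 := ⟨l, h0⟩
    set k := Nat.find hex with hk
    have hk0 : ∀ x y z w, hyp k (fun a b c d => T (mk4 a b c d)) x y z w = 0 := Nat.find_spec hex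
    have hkl : k ≤ l := Nat.find_min' hex h0
    have hkpos : k ≠ 0 := by
      intro h
      rw [h] at hk0
      have h1 := hk0 Fin.elim0 Fin.elim0 Fin.elim0 Fin.elim0
      unfold hyp at h1
      simp at h1
    obtain ⟨s, hs⟩ := Nat.exists_eq_succ_of_ne_zero hkpos
    have hs1 : ∀ x y z w, hyp (s + 1) (fun a b c d => T (mk4 a b c d)) x y z w = 0 := by
      have h2 := hk0
      rw [hs] at h2
      exact h2
    have hs2 : ¬ ∀ x y z w, hyp s (fun a b c d => T (mk4 a b c d)) x y z w = 0 :=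
      Nat.find_min hex (by rw [← hk, hs]; exact Nat.lt_succ_self s)
    push Not at hs2
    obtain ⟨x₀, y₀, z₀, w₀, hne0⟩ := hs2
    obtain ⟨a, a', b, b', c, c', d, d', t, u, v, A, B, C, D, E, F, hdec, -⟩ :=
      hEXP K (Q 0) (Q 1) (Q 2) (Q 3) (fun a b c d => T (mk4 a b c d)) s x₀ y₀ z₀ w₀ hne0 hs1
    have hsl : s ≤ l := by omega
    have hDec : Dec (l ^ 3) (s ^ 2) (s ^ 2) (s ^ 2) (s ^ 2) (s ^ 2) (s ^ 2)
        (fun a b c d => T (mk4 a b c d)) :=
      ⟨slSum a a' b b' c c' d d', t, u, v, A, B, C, D, E, F,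
        SB4_mono (Nat.pow_le_pow_left hsl 3) ⟨a, a', b, b', c, c', d, d', fun _ _ _ _ => rfl⟩, hdec⟩
    have hsq : s ^ 2 ≤ l ^ 2 := Nat.pow_le_pow_left hsl 2
    obtain ⟨r, na, nb, nc, nd, ne', nf, hrr, hsum, hreg⟩ := hr₁ l K (Q 0) (Q 1) (Q 2) (Q 3)
      (fun a b c d => T (mk4 a b c d)) (s ^ 2) (s ^ 2) (s ^ 2) (s ^ 2) (s ^ 2) (s ^ 2)
      (by omega) hDec
    have f0 : Fintype (Q 0) := Fintype.ofFinite _
    have f1 : Fintype (Q 1) := Fintype.ofFinite _
    have f2 : Fintype (Q 2) := Fintype.ofFinite _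
    have f3 : Fintype (Q 3) := Fintype.ofFinite _
    have hSl : Sl r (fun a b c d => T (mk4 a b c d)) :=
      hCONA l (6 * l ^ 2) r K (Q 0) (Q 1) (Q 2) (Q 3) hl na nb nc nd ne' nf (by omega) (by omega)
        (by omega) (by omega) (by omega) (by omega) _ hreg
        (hHML K (Q 0) (Q 1) (Q 2) (Q 3) _ l h0)
    have hSum := (hSLC K Q T).1 r hSl
    have h3 := rank_le_of_sumOf hSum
    have h4 : ((4 * r₁ l + 1 : ℕ) : ℕ∞) ≤ ((4 * r : ℕ) : ℕ∞) := hT.trans h3
    rw [Nat.cast_le] at h4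
    omega

end Pool.Agent.helper35.MR
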