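import Pool.Agent.helper35.MR.SpecB

set_option autoImplicit false

open Finset

namespace Pool.Agent.helper35.MR

open Pool.Agent.RRank

theorem RG3_perm {K : Type} [Field K] (π : Equiv.Perm (Fin 4)) {W : (Fin 4 → ℤ) → K} (h : Low W) :
    Low (fun x => W (fun α => x (π α))) := by
  obtain ⟨g, hg1, hg2, hg3⟩ := h
  refine ⟨fun β x => g (π.symm β) (fun α => x (π α)), ?_, ?_, ?_⟩
  · intro β x y hxy
    exact hg1 (π.symm β) _ _ (fun α γ => hxy (π α) (π γ))
  · intro β x y hxy
    refine hg2 (π.symm β) _ _ ?_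
    intro γ hγ
    apply hxy
    intro h
    apply hγ
    rw [← h, Equiv.symm_apply_apply]
  · intro x
    show W (fun α => x (π α)) = ∑ β, g (π.symm β) (fun α => x (π α))
    rw [hg3]
    exact (Equiv.sum_comp π.symm (fun α => g α (fun α => x (π α)))).symm

theorem RG3_OT {K : Type} (π : Equiv.Perm (Fin 4)) {V : (Fin 4 → ℤ) → K} (h : OT V) :
    OT (fun x : Fin 4 → ℤ => V (fun α => x (π α))) := by
  intro x y hxy
  exact h _ _ (fun α γ => hxy (π α) (π γ))

theorem RG3_add {K : Type} [Field K] {V W : (Fin 4 → ℤ) → K} (h : Low V) (h' : Low W) :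
    Low (fun x => V x + W x) := by
  obtain ⟨g, hg1, hg2, hg3⟩ := h
  obtain ⟨g', hg1', hg2', hg3'⟩ := h'
  refine ⟨fun α x => g α x + g' α x, ?_, ?_, ?_⟩
  · intro α x y hxy
    show g α x + g' α x = g α y + g' α y
    rw [hg1 α x y hxy, hg1' α x y hxy]
  · intro α x y hxy
    show g α x + g' α x = g α y + g' α y
    rw [hg2 α x y hxy, hg2' α x y hxy]
  · intro x
    show V x + W x = ∑ α, (g α x + g' α x)
    rw [hg3, hg3', Finset.sum_add_distrib]

/-- a function of the comparison of two coordinates is `Low` -/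
theorem RG3_cmp {K : Type} [Field K] (a : Ordering → K) (α β γ : Fin 4) (h1 : α ≠ γ) (h2 : β ≠ γ) :
    Low (fun x : Fin 4 → ℤ => a (cmp (x α) (x β))) := by
  refine ⟨fun δ x => if δ = γ then a (cmp (x α) (x β)) else 0, ?_, ?_, ?_⟩
  · intro δ x y hxy
    have h : cmp (x α) (x β) = cmp (y α) (y β) := by
      have e1 := hxy α β
      have e2 := hxy β α
      rcases lt_trichotomy (x α) (x β) with h | h | h
      · rw [cmp_eq_lt_iff _ _ |>.mpr h, cmp_eq_lt_iff _ _ |>.mpr (e1.mp h)]
      · have h3 : y α = y β := by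
          have n1 : ¬ y α < y β := fun h' => absurd (e1.mpr h') (by omega)
          have n2 : ¬ y β < y α := fun h' => absurd (e2.mpr h') (by omega)
          omega
        rw [cmp_eq_eq_iff _ _ |>.mpr h, cmp_eq_eq_iff _ _ |>.mpr h3]
      · rw [cmp_eq_gt_iff _ _ |>.mpr h, cmp_eq_gt_iff _ _ |>.mpr (e2.mp h)]
    show (if δ = γ then a (cmp (x α) (x β)) else 0) = if δ = γ then a (cmp (y α) (y β)) else 0
    rw [h]
  · intro δ x y hxy
    show (if δ = γ then a (cmp (x α) (x β)) else 0) = if δ = γ then a (cmp (y α) (y β)) else 0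
    by_cases hδ : δ = γ
    · rw [if_pos hδ, if_pos hδ, hxy α (by rw [hδ]; exact h1), hxy β (by rw [hδ]; exact h2)]
    · rw [if_neg hδ, if_neg hδ]
  · intro x
    simp

theorem RG3_full1 {K ι : Type} [Field K] [Fintype ι] (M : ι → ι → ι → ι → K)
    (h : Full4 M) : Full4 (fun i j k m => M i k j m) := by
  intro U₁ U₂ U₃ U₄ hU
  obtain ⟨u₁, h₁, u₂, h₂, u₃, h₃, u₄, h₄, hne⟩ := h U₁ U₃ U₂ U₄ (by omega)
  refine ⟨u₁, h₁, u₃, h₃, u₂, h₂, u₄, h₄, ?_⟩
  refine fun h0 => hne (Eq.trans ?_ h0)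
  unfold ev4
  refine Finset.sum_congr rfl fun i _ => ?_
  rw [Finset.sum_comm]
  refine Finset.sum_congr rfl fun j _ => Finset.sum_congr rfl fun k _ =>
    Finset.sum_congr rfl fun m _ => ?_
  ring

theorem RG3_full2 {K ι : Type} [Field K] [Fintype ι] (M : ι → ι → ι → ι → K)
    (h : Full4 M) : Full4 (fun i j k m => M i j m k) := by
  intro U₁ U₂ U₃ U₄ hU
  obtain ⟨u₁, h₁, u₂, h₂, u₃, h₃, u₄, h₄, hne⟩ := h U₁ U₂ U₄ U₃ (by omega)
  refine ⟨u₁, h₁, u₂, h₂, u₄, h₄, u₃, h₃, ?_⟩
  refine fun h0 => hne (Eq.trans ?_ h0)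
  unfold ev4
  refine Finset.sum_congr rfl fun i _ => Finset.sum_congr rfl fun j _ => ?_
  rw [Finset.sum_comm]
  refine Finset.sum_congr rfl fun k _ => Finset.sum_congr rfl fun m _ => ?_
  ring

/-- the cyclic permutation -/
def RG3_cyc : Equiv.Perm (Fin 4) where
  toFun := ![0, 2, 3, 1]
  invFun := ![0, 3, 1, 2]
  left_inv := by decide
  right_inv := by decide

/-- RG3. -/
theorem RG3 (hRG : RG_stmt) : RG3_stmt := by
  intro K _ V hOT F G H hform hnl l hl
  by_cases hF : Add2 F
  · by_cases hG : Add2 G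
    · by_cases hH : Add2 H
      · exfalso
        apply hnl
        obtain ⟨a, b, hF⟩ := hF
        obtain ⟨a', b', hG⟩ := hG
        obtain ⟨a'', b'', hH⟩ := hH
        have e := RG3_add (RG3_add (RG3_add hform
          (RG3_add (RG3_cmp a 0 1 2 (by decide) (by decide)) (RG3_cmp b 2 3 0 (by decide) (by decide))))
          (RG3_add (RG3_cmp a' 0 2 1 (by decide) (by decide)) (RG3_cmp b' 1 3 0 (by decide) (by decide))))
          (RG3_add (RG3_cmp a'' 0 3 1 (by decide) (by decide)) (RG3_cmp b'' 1 2 0 (by decide) (by decide)))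
        have h2 : V = fun x => (V x - F (cmp (x 0) (x 1)) (cmp (x 2) (x 3)) -
            G (cmp (x 0) (x 2)) (cmp (x 1) (x 3)) - H (cmp (x 0) (x 3)) (cmp (x 1) (x 2)) +
            (a (cmp (x 0) (x 1)) + b (cmp (x 2) (x 3))) +
            (a' (cmp (x 0) (x 2)) + b' (cmp (x 1) (x 3))) +
            (a'' (cmp (x 0) (x 3)) + b'' (cmp (x 1) (x 2)))) := by
          funext x
          rw [hF, hG, hH]
          ring
        rw [h2]
        exact e
      · -- `H` is not `Add2`
        have hform' : Form4 (fun x => V (fun α => x (RG3_cyc α))) H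
            (fun r s => F r s.swap) (fun r s => G r s.swap) := by
          have h1 := RG3_perm RG3_cyc hform
          unfold Form4
          have h2 : (fun x : Fin 4 → ℤ => V (fun α => x (RG3_cyc α)) -
              H (cmp (x 0) (x 1)) (cmp (x 2) (x 3)) -
              F (cmp (x 0) (x 2)) (cmp (x 1) (x 3)).swap -
              G (cmp (x 0) (x 3)) (cmp (x 1) (x 2)).swap) =
              fun x => V (fun α => x (RG3_cyc α)) -
                F (cmp (x (RG3_cyc 0)) (x (RG3_cyc 1))) (cmp (x (RG3_cyc 2)) (x (RG3_cyc 3))) -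
                G (cmp (x (RG3_cyc 0)) (x (RG3_cyc 2))) (cmp (x (RG3_cyc 1)) (x (RG3_cyc 3))) -
                H (cmp (x (RG3_cyc 0)) (x (RG3_cyc 3))) (cmp (x (RG3_cyc 1)) (x (RG3_cyc 2))) := by
            funext x
            rw [cmp_swap, cmp_swap]
            show _ = V (fun α => x (RG3_cyc α)) -
                F (cmp (x 0) (x 2)) (cmp (x 3) (x 1)) -
                G (cmp (x 0) (x 3)) (cmp (x 2) (x 1)) -
                H (cmp (x 0) (x 1)) (cmp (x 2) (x 3))
            ring
          rw [h2]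
          exact h1
        obtain ⟨x, y, z, w, hfull⟩ := hRG K _ (RG3_OT RG3_cyc hOT) _ _ _ hform' hH l hl
        refine ⟨x, z, w, y, ?_⟩
        have h3 := RG3_full1 _ (RG3_full2 _ hfull)
        have h4 : (fun i j k m : Fin l =>
            V ![((x i : ℕ) : ℤ), ((z j : ℕ) : ℤ), ((w k : ℕ) : ℤ), ((y m : ℕ) : ℤ)]) =
            fun i j k m : Fin l => V (fun α => (![((x i : ℕ) : ℤ), ((y m : ℕ) : ℤ), ((z j : ℕ) : ℤ),
              ((w k : ℕ) : ℤ)] : Fin 4 → ℤ) (RG3_cyc α)) := by
          funext i j k m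
          congr 1
          funext α
          fin_cases α <;> rfl
        rw [h4]
        have h5 := RG3_full2 _ h3
        first
          | exact h5
          | exact h3
          | exact RG3_full1 _ h3
          | exact RG3_full1 _ h5
    · -- `G` is not `Add2`
      have hform' : Form4 (fun x => V (fun α => x (Equiv.swap (1 : Fin 4) 2 α))) G F
          (fun r s => H r s.swap) := by
        have h1 := RG3_perm (Equiv.swap (1 : Fin 4) 2) hform
        unfold Form4
        have h2 : (fun x : Fin 4 → ℤ => V (fun α => x (Equiv.swap (1 : Fin 4) 2 α)) -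
            G (cmp (x 0) (x 1)) (cmp (x 2) (x 3)) -
            F (cmp (x 0) (x 2)) (cmp (x 1) (x 3)) -
            H (cmp (x 0) (x 3)) (cmp (x 1) (x 2)).swap) =
            fun x => V (fun α => x (Equiv.swap (1 : Fin 4) 2 α)) -
              F (cmp (x (Equiv.swap (1 : Fin 4) 2 0)) (x (Equiv.swap (1 : Fin 4) 2 1)))
                (cmp (x (Equiv.swap (1 : Fin 4) 2 2)) (x (Equiv.swap (1 : Fin 4) 2 3))) -
              G (cmp (x (Equiv.swap (1 : Fin 4) 2 0)) (x (Equiv.swap (1 : Fin 4) 2 2)))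
                (cmp (x (Equiv.swap (1 : Fin 4) 2 1)) (x (Equiv.swap (1 : Fin 4) 2 3))) -
              H (cmp (x (Equiv.swap (1 : Fin 4) 2 0)) (x (Equiv.swap (1 : Fin 4) 2 3)))
                (cmp (x (Equiv.swap (1 : Fin 4) 2 1)) (x (Equiv.swap (1 : Fin 4) 2 2))) := by
          funext x
          rw [cmp_swap]
          have s0 : Equiv.swap (1 : Fin 4) 2 0 = 0 := by decide
          have s1 : Equiv.swap (1 : Fin 4) 2 1 = 2 := by decide
          have s2 : Equiv.swap (1 : Fin 4) 2 2 = 1 := by decide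
          have s3 : Equiv.swap (1 : Fin 4) 2 3 = 3 := by decide
          rw [s0, s1, s2, s3]
          ring
        rw [h2]
        exact h1
      obtain ⟨x, y, z, w, hfull⟩ := hRG K _ (RG3_OT (Equiv.swap (1 : Fin 4) 2) hOT) _ _ _ hform' hG l hl
      refine ⟨x, z, y, w, ?_⟩
      have h3 := RG3_full1 _ hfull
      have h4 : (fun i j k m : Fin l =>
          V ![((x i : ℕ) : ℤ), ((z j : ℕ) : ℤ), ((y k : ℕ) : ℤ), ((w m : ℕ) : ℤ)]) =
          fun i j k m : Fin l => V (fun α => (![((x i : ℕ) : ℤ), ((y k : ℕ) : ℤ), ((z j : ℕ) : ℤ),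
            ((w m : ℕ) : ℤ)] : Fin 4 → ℤ) (Equiv.swap (1 : Fin 4) 2 α)) := by
        funext i j k m
        congr 1
        funext α
        fin_cases α <;> rfl
      rw [h4]
      exact h3
  · exact hRG K V hOT F G H hform hF l hl

end Pool.Agent.helper35.MR
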